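import Pool.Agent.H18.CGR.Stmts

set_option autoImplicit false

namespace Pool.CGR

namespace MN1

theorem catalan_le (n : ℕ) : catalan n ≤ 4 ^ n := by
  rw [catalan_eq_centralBinom_div]
  refine (Nat.div_le_self _ _).trans ?_
  rw [Nat.centralBinom_eq_two_mul_choose]
  refine (Nat.choose_le_two_pow (2 * n) n).trans ?_
  rw [pow_mul]
  norm_num

theorem ev_cons {α A : Type*} [Monoid A] (x : α → A) (i : α) (w : List α) :
    ev x (i :: w) = x i * ev x w := by
  unfold ev
  rw [List.map_cons, List.prod_cons]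

theorem ev_append_singleton {α A : Type*} [Monoid A] (x : α → A) (i : α) (w : List α) :
    ev x (w ++ [i]) = ev x w * x i := by
  unfold ev
  rw [List.map_append, List.prod_append, List.map_singleton, List.prod_singleton]

end MN1

theorem mn1_thm (h1 : KBDStmt) (h2 : PEXStmt) (h3 : CYCStmt) (h4 : MCZStmt) (h5 : IOTStmt)
    (h6 : NRMStmt) (h7 : MOMStmt) (h8 : PT1Stmt) : MN1Stmt := by
  intro m A _ τ hτ y S R hy hS hSemi hR hmR
  have hR0 : ∀ i : Fin m, 0 ≤ R := fun i => (norm_nonneg _).trans (hR i)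
  have hR' : ∀ i, ‖y i‖ ≤ max R 0 := fun i => (hR i).trans (le_max_left _ _)
  have hmR' : 100 * (m : ℝ) * max R 0 ≤ 1 := by
    rcases le_total 0 R with h | h
    · rw [max_eq_left h]
      exact hmR
    · rw [max_eq_right h, mul_zero]
      exact zero_le_one
  have hKb : Kb (ky τ y) := h1 m A τ hτ y (max R 0) (le_max_right _ _) hR' hmR'
  have hlaw : ∀ w : List (Fin m), nn (ky τ y) w [] = τ (ev y w) := h2 (Fin m) A τ y hτ.one
  have hCY : CY (ky τ y) := by
    refine h3 (Fin m) (ky τ y) fun i w => ?_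
    rw [hlaw, hlaw, MN1.ev_cons, MN1.ev_append_singleton]
    exact hτ.comm _ _
  have hz := h4 m A τ hτ y S hSemi (ky τ y) hCY fun w => (hlaw w).symm
  have hx := h5 m (ky τ y) A τ y S hz
  have hS2 : ∀ i, ‖S i‖ ≤ 2 := by
    intro i
    refine h6 A τ hτ (S i) (hS i) fun n => ?_
    rw [h7 m A τ hτ y S hSemi i n, Complex.natCast_re]
    exact_mod_cast MN1.catalan_le n
  refine h8 m (ky τ y) hKb hCY A τ hτ (fun i => y i + S i) (fun i => ?_) hx
  have hm1 : (1 : ℝ) ≤ m := by
    have : 0 < m := (Nat.zero_le _).trans_lt i.2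
    exact_mod_cast this
  have hRi := hR0 i
  have hR1 : R ≤ 1 / 4 := by nlinarith
  calc ‖y i + S i‖ ≤ ‖y i‖ + ‖S i‖ := norm_add_le _ _
    _ ≤ 1 / 4 + 2 := add_le_add ((hR i).trans hR1) (hS2 i)
    _ ≤ 9 / 4 := by norm_num

end Pool.CGR
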